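import Pool.Agent.Q86.PA.Main
import Pool.Agent.Q86.PA.ZBU
import Pool.Agent.Q86.PA.TV
import Pool.Agent.Q86.PA.CNT
import Pool.Agent.Q86.PA.FH
import Pool.Agent.Q86.PA.Geo
import Pool.Agent.Q86.PA.AV
import Pool.Agent.Q86.PA.AN
import Pool.Agent.Q86.PA.BOX

/-!
# Homogeneous selection for colour classes of unequal sizes: the answer to Q1 is yes

In every dimension `d ≥ 1` there is a constant `c > 0` depending only on `d` such that any
`d + 1` nonempty finite sets in Euclidean `d`-space, of arbitrary sizes, admit a homogeneous
selection with constant `c`.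

The proof contains a proof of the equal-size case (Pach's theorem):
a Borsuk-Ulam theorem for `ZMod p` gives the coloured Tverberg theorem for primes; counting and
points of least norm (fractional Helly) give a point in a positive fraction of the rainbow
simplices; hyperplanes through centerpoints give large parts of the classes for which the point
lies in all simplices or in none; a density increment over boxes finishes.  The passage from
equal to arbitrary sizes is the reduction of `EqualSizesSuffice` (helper134).
-/

set_option autoImplicit false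

namespace Pool.Agent.Results.MP_c3eb34_co.AllSizes

/-- **Homogeneous selection for classes of arbitrary sizes.** -/
theorem result (d : ℕ) (hd : 1 ≤ d) :
    ∃ c : ℝ, 0 < c ∧
      ∀ C : Fin (d + 1) → Finset (EuclideanSpace ℝ (Fin d)), (∀ i, (C i).Nonempty) →
        ∃ (p : EuclideanSpace ℝ (Fin d)) (D : Fin (d + 1) → Finset (EuclideanSpace ℝ (Fin d))),
          (∀ i, D i ⊆ C i) ∧ (∀ i, c * ((C i).card : ℝ) ≤ ((D i).card : ℝ)) ∧
          ∀ x : Fin (d + 1) → EuclideanSpace ℝ (Fin d), (∀ i, x i ∈ D i) →
            p ∈ convexHull ℝ (Set.range x) :=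
  Q86.PA.anySizes (Q86.PA.cnt (Q86.PA.tv Q86.PA.zbu)) Q86.PA.fh Q86.PA.gpl
    (Q86.PA.av (Q86.PA.sep_lemma Q86.PA.cp)) Q86.PA.an Q86.PA.box d hd

end Pool.Agent.Results.MP_c3eb34_co.AllSizes
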